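import Pool.Agent.U866.OM.Stm

/-!
# Project OM, package SMALL: small multiples of a function with positive integral of `Q`
-/

set_option autoImplicit false

namespace Pool.Agent.U99.OM

open Pool.Agent.H498R3.GB (E pd pd_const_mul diff_of)
open Pool.Agent.U866.OM
open scoped BigOperators ContDiff Topology Matrix
open MeasureTheory Filter Metric

variable {m : ℕ}

theorem cd_pd {v : E m → ℝ} (hv : ContDiff ℝ ∞ v) (j : Fin m) : ContDiff ℝ ∞ (pd j v) := by
  unfold Pool.Agent.H498R3.GB.pd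
  exact (hv.fderiv_right (by simp)).clm_apply contDiff_const

theorem p_smul {v : E m → ℝ} (hv : ContDiff ℝ ∞ v) (δ : ℝ) (x : E m) (i : Fin m) :
    p (fun z => δ * v z) x i = δ * p v x i := by
  unfold p
  exact pd_const_mul δ (diff_of hv x) i

theorem A_smul {v : E m → ℝ} (hv : ContDiff ℝ ∞ v) (δ : ℝ) (x : E m) (i j : Fin m) :
    A (fun z => δ * v z) x i j = δ * A v x i j := by
  unfold A
  have e : pd j (fun z => δ * v z) = fun z => δ * pd j v z := by
    funext z
    exact pd_const_mul δ (diff_of hv z) j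
  rw [e]
  exact pd_const_mul δ (diff_of (cd_pd hv j) x) i

theorem Q_smul {v : E m → ℝ} (hv : ContDiff ℝ ∞ v) (δ : ℝ) (x : E m) :
    Q (fun z => δ * v z) x = δ ^ 4 * Q v x := by
  unfold Q
  simp only [p_smul hv, A_smul hv]
  have e1 : ∑ i, δ * A v x i i = δ * ∑ i, A v x i i := by rw [Finset.mul_sum]
  have e2 : ∑ i, ∑ j, δ * A v x i j * (δ * p v x i) * (δ * p v x j) =
      δ ^ 3 * ∑ i, ∑ j, A v x i j * p v x i * p v x j := by
    rw [Finset.mul_sum]
    refine Finset.sum_congr rfl fun i _ => ?_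
    rw [Finset.mul_sum]
    refine Finset.sum_congr rfl fun j _ => ?_
    ring
  have e3 : ∀ i, ∑ j, δ * A v x i j * (δ * p v x j) = δ ^ 2 * ∑ j, A v x i j * p v x j := by
    intro i
    rw [Finset.mul_sum]
    refine Finset.sum_congr rfl fun j _ => ?_
    ring
  have e4 : ∑ i, (∑ j, δ * A v x i j * (δ * p v x j)) ^ 2 =
      δ ^ 4 * ∑ i, (∑ j, A v x i j * p v x j) ^ 2 := by
    rw [Finset.mul_sum]
    refine Finset.sum_congr rfl fun i _ => ?_
    rw [e3]
    ring
  rw [e1, e2, e4]
  ring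

theorem W2_smul {v : E m → ℝ} (hv : ContDiff ℝ ∞ v) (δ : ℝ) (x : E m) :
    W2 (fun z => δ * v z) x = 1 + δ ^ 2 * ∑ i, p v x i ^ 2 := by
  unfold W2
  simp only [p_smul hv]
  rw [Finset.mul_sum]
  congr 1
  refine Finset.sum_congr rfl fun i _ => ?_
  ring

theorem p_cont {v : E m → ℝ} (hv : ContDiff ℝ ∞ v) (i : Fin m) : Continuous fun x => p v x i :=
  (cd_pd hv i).continuous

theorem A_cont {v : E m → ℝ} (hv : ContDiff ℝ ∞ v) (i j : Fin m) :
    Continuous fun x => A v x i j :=
  (cd_pd (cd_pd hv j) i).continuous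

theorem Q_cont {v : E m → ℝ} (hv : ContDiff ℝ ∞ v) : Continuous (Q v) := by
  have hp := p_cont hv
  have hA := A_cont hv
  unfold Q
  refine Continuous.sub (Continuous.mul ?_ ?_) ?_
  · exact continuous_finsetSum _ fun i _ => hA i i
  · exact continuous_finsetSum _ fun i _ => continuous_finsetSum _ fun j _ =>
      ((hA i j).mul (hp i)).mul (hp j)
  · exact continuous_finsetSum _ fun i _ =>
      (continuous_finsetSum _ fun j _ => (hA i j).mul (hp j)).pow 2

theorem Q_int {v : E m → ℝ} (hv : ContDiff ℝ ∞ v) (hc : HasCompactSupport v) :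
    Integrable (Q v) := by
  refine (Q_cont hv).integrable_of_hasCompactSupport ?_
  refine HasCompactSupport.intro hc fun x hx => ?_
  have hp : ∀ i, p v x i = 0 := by
    intro i
    unfold p Pool.Agent.H498R3.GB.pd
    rw [fderiv_of_notMem_tsupport ℝ hx]
    rfl
  unfold Q
  simp [hp]

theorem t_SMALL : S_SMALL := by
  intro m v hv hc hpos
  obtain ⟨s, hs⟩ : ∃ s : E m → ℝ, s = fun x => ∑ i, p v x i ^ 2 := ⟨_, rfl⟩
  have hs0 : ∀ x, 0 ≤ s x := fun x => by
    rw [hs]
    exact Finset.sum_nonneg fun i _ => sq_nonneg _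
  have hsc : Continuous s := by
    rw [hs]
    exact continuous_finsetSum _ fun i _ => (p_cont hv i).pow 2
  have hQ := Q_int hv hc
  have hden : ∀ δ x, 1 ≤ (1 + δ ^ 2 * s x) * √(1 + δ ^ 2 * s x) := by
    intro δ x
    have h1 : 1 ≤ 1 + δ ^ 2 * s x := by
      have := mul_nonneg (sq_nonneg δ) (hs0 x)
      linarith
    have h2 : 1 ≤ √(1 + δ ^ 2 * s x) := Real.one_le_sqrt.2 h1
    exact one_le_mul_of_one_le_of_one_le h1 h2
  have hlim : Tendsto (fun δ : ℝ => ∫ x, Q v x / ((1 + δ ^ 2 * s x) * √(1 + δ ^ 2 * s x)))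
      (𝓝 0) (𝓝 (∫ x, Q v x)) := by
    refine tendsto_integral_filter_of_dominated_convergence (fun x => |Q v x|) ?_ ?_ hQ.abs ?_
    · refine Eventually.of_forall fun δ => ?_
      refine (Continuous.div (Q_cont hv) (by fun_prop) fun x => ?_).aestronglyMeasurable
      have := hden δ x
      linarith
    · refine Eventually.of_forall fun δ => Eventually.of_forall fun x => ?_
      have h1 := hden δ x
      rw [Real.norm_eq_abs, abs_div, abs_of_pos (by linarith : (0 : ℝ) < (1 + δ ^ 2 * s x) *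
        √(1 + δ ^ 2 * s x))]
      exact div_le_self (abs_nonneg _) h1
    · refine Eventually.of_forall fun x => ?_
      have h1 : Continuous fun δ : ℝ => Q v x / ((1 + δ ^ 2 * s x) * √(1 + δ ^ 2 * s x)) := by
        refine Continuous.div continuous_const (by fun_prop) fun δ => ?_
        have := hden δ x
        linarith
      have h2 := h1.tendsto 0
      simpa using h2
  have hev : ∀ᶠ δ in 𝓝[>] (0 : ℝ),
      0 < ∫ x, Q v x / ((1 + δ ^ 2 * s x) * √(1 + δ ^ 2 * s x)) :=
    (hlim.mono_left nhdsWithin_le_nhds).eventually (lt_mem_nhds hpos)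
  filter_upwards [hev, self_mem_nhdsWithin] with δ h1 h2
  have hδ : 0 < δ := h2
  have e : ∀ x, Q (fun z => δ * v z) x / (W2 (fun z => δ * v z) x * √(W2 (fun z => δ * v z) x)) =
      δ ^ 4 * (Q v x / ((1 + δ ^ 2 * s x) * √(1 + δ ^ 2 * s x))) := by
    intro x
    rw [Q_smul hv, W2_smul hv, hs, mul_div_assoc]
  simp only [e]
  rw [integral_const_mul]
  positivity

end Pool.Agent.U99.OM
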